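import Pool.Agent.Y152.RP.Stm

/-!
Project RP, job RP-STRA: radical numbers in the abelian field generated by a root of unity and the
square root of a positive rational number.
-/

set_option autoImplicit false

namespace Pool.Agent.Y258.RP

open Pool.Agent.Y152.RP IntermediateField

/-- Complex conjugation commutes with the embeddings of the field. -/
lemma conj_comm {N : ℕ} {ζ r : ℂ} {q : ℚ} (hN : 0 < N) (hζ : IsPrimitiveRoot ζ N) (hq : 0 < q)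
    (hr : r ^ 2 = (q : ℂ)) : ∀ (y : ℂ) (hy : y ∈ adjoin ℚ ({ζ, r} : Set ℂ)),
    ∃ h : (starRingEnd ℂ) y ∈ adjoin ℚ ({ζ, r} : Set ℂ),
      ∀ σ : adjoin ℚ ({ζ, r} : Set ℂ) →ₐ[ℚ] ℂ,
        σ ⟨(starRingEnd ℂ) y, h⟩ = (starRingEnd ℂ) (σ ⟨y, hy⟩) := by
  have key1 : ∀ u : ℂ, u ^ N = 1 → (starRingEnd ℂ) u = u⁻¹ := by
    intro u hu
    have h1 : ‖u‖ = 1 := by
      have h2 : ‖u‖ ^ N = 1 := by rw [← norm_pow, hu, norm_one]
      exact (pow_eq_one_iff_of_nonneg (norm_nonneg _) hN.ne').1 h2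
    rw [Complex.inv_def, Complex.normSq_eq_norm_sq, h1]
    simp
  have key2 : ∀ u : ℂ, u ^ 2 = (q : ℂ) → (starRingEnd ℂ) u = u := by
    intro u hu
    have h1 : (u ^ 2).im = 0 := by rw [hu]; simp
    have h2 : 0 < (u ^ 2).re := by
      rw [hu]
      have : ((q : ℂ)).re = (q : ℝ) := by simp
      rw [this]
      exact_mod_cast hq
    rw [sq, Complex.mul_im] at h1
    rw [sq, Complex.mul_re] at h2
    have h3 : u.im = 0 := by
      by_contra hne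
      have h4 : u.re = 0 := by
        have h5 : u.re * u.im = 0 := by linarith
        exact (mul_eq_zero.1 h5).resolve_right hne
      rw [h4] at h2
      nlinarith [mul_self_pos.2 hne]
    exact Complex.conj_eq_iff_im.2 h3
  intro y hy
  induction hy using IntermediateField.adjoin_induction with
  | mem x hx =>
    have hxK := subset_adjoin ℚ ({ζ, r} : Set ℂ) hx
    rcases hx with rfl | hx
    · have h1 := key1 x hζ.pow_eq_one
      have h2 : (starRingEnd ℂ) x ∈ adjoin ℚ ({x, r} : Set ℂ) := by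
        rw [h1]
        exact inv_mem hxK
      refine ⟨h2, fun σ => ?_⟩
      have h3 : (⟨(starRingEnd ℂ) x, h2⟩ : adjoin ℚ ({x, r} : Set ℂ)) = (⟨x, hxK⟩)⁻¹ :=
        Subtype.ext h1
      rw [h3, map_inv₀]
      refine (key1 _ ?_).symm
      rw [← map_pow]
      have h4 : (⟨x, hxK⟩ : adjoin ℚ ({x, r} : Set ℂ)) ^ N = 1 := Subtype.ext hζ.pow_eq_one
      rw [h4, map_one]
    · have hx' : x = r := hx
      subst hx'
      have h1 := key2 x hr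
      have h2 : (starRingEnd ℂ) x ∈ adjoin ℚ ({ζ, x} : Set ℂ) := by
        rw [h1]
        exact hxK
      refine ⟨h2, fun σ => ?_⟩
      have h3 : (⟨(starRingEnd ℂ) x, h2⟩ : adjoin ℚ ({ζ, x} : Set ℂ)) = ⟨x, hxK⟩ :=
        Subtype.ext h1
      rw [h3]
      refine (key2 _ ?_).symm
      rw [← map_pow]
      have h4 : (⟨x, hxK⟩ : adjoin ℚ ({ζ, x} : Set ℂ)) ^ 2 = algebraMap ℚ _ q :=
        Subtype.ext (by
          change x ^ 2 = _
          rw [hr]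
          rfl)
      rw [h4, AlgHom.commutes]
      rfl
  | algebraMap a =>
    have h1 : (starRingEnd ℂ) (algebraMap ℚ ℂ a) = algebraMap ℚ ℂ a := by simp
    have h2 : (starRingEnd ℂ) (algebraMap ℚ ℂ a) ∈ adjoin ℚ ({ζ, r} : Set ℂ) := by
      rw [h1]
      exact IntermediateField.algebraMap_mem _ _
    refine ⟨h2, fun σ => ?_⟩
    have h3 : (⟨(starRingEnd ℂ) (algebraMap ℚ ℂ a), h2⟩ : adjoin ℚ ({ζ, r} : Set ℂ)) =
      algebraMap ℚ _ a := Subtype.ext h1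
    have h4 : (⟨algebraMap ℚ ℂ a, IntermediateField.algebraMap_mem _ _⟩ :
      adjoin ℚ ({ζ, r} : Set ℂ)) = algebraMap ℚ _ a := rfl
    rw [h3, h4, AlgHom.commutes, h1]
  | add x y hx hy ihx ihy =>
    obtain ⟨h1, h1'⟩ := ihx
    obtain ⟨h2, h2'⟩ := ihy
    have h3 : (starRingEnd ℂ) (x + y) ∈ adjoin ℚ ({ζ, r} : Set ℂ) := by
      rw [map_add]
      exact add_mem h1 h2
    refine ⟨h3, fun σ => ?_⟩
    have h4 : (⟨(starRingEnd ℂ) (x + y), h3⟩ : adjoin ℚ ({ζ, r} : Set ℂ)) =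
      ⟨_, h1⟩ + ⟨_, h2⟩ := Subtype.ext (map_add _ _ _)
    have h5 : (⟨x + y, add_mem hx hy⟩ : adjoin ℚ ({ζ, r} : Set ℂ)) = ⟨x, hx⟩ + ⟨y, hy⟩ := rfl
    rw [h4, h5, map_add, map_add, map_add, h1', h2']
  | mul x y hx hy ihx ihy =>
    obtain ⟨h1, h1'⟩ := ihx
    obtain ⟨h2, h2'⟩ := ihy
    have h3 : (starRingEnd ℂ) (x * y) ∈ adjoin ℚ ({ζ, r} : Set ℂ) := by
      rw [map_mul]
      exact mul_mem h1 h2
    refine ⟨h3, fun σ => ?_⟩
    have h4 : (⟨(starRingEnd ℂ) (x * y), h3⟩ : adjoin ℚ ({ζ, r} : Set ℂ)) =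
      ⟨_, h1⟩ * ⟨_, h2⟩ := Subtype.ext (map_mul _ _ _)
    have h5 : (⟨x * y, mul_mem hx hy⟩ : adjoin ℚ ({ζ, r} : Set ℂ)) = ⟨x, hx⟩ * ⟨y, hy⟩ := rfl
    rw [h4, h5, map_mul, map_mul, map_mul, h1', h2']
  | inv x hx ihx =>
    obtain ⟨h1, h1'⟩ := ihx
    have h3 : (starRingEnd ℂ) x⁻¹ ∈ adjoin ℚ ({ζ, r} : Set ℂ) := by
      rw [map_inv₀]
      exact inv_mem h1
    refine ⟨h3, fun σ => ?_⟩
    have h4 : (⟨(starRingEnd ℂ) x⁻¹, h3⟩ : adjoin ℚ ({ζ, r} : Set ℂ)) = (⟨_, h1⟩)⁻¹ :=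
      Subtype.ext (map_inv₀ _ _)
    have h5 : (⟨x⁻¹, inv_mem hx⟩ : adjoin ℚ ({ζ, r} : Set ℂ)) = (⟨x, hx⟩)⁻¹ := rfl
    rw [h4, h5, map_inv₀, map_inv₀, map_inv₀, h1']

/-- An element of a number field all of whose conjugates are equal is rational. -/
lemma rat_of_conj (K : IntermediateField ℚ ℂ) [FiniteDimensional ℚ K] (y : K)
    (h : ∀ σ : K →ₐ[ℚ] ℂ, σ y = (y : ℂ)) : ∃ t : ℚ, (y : ℂ) = (t : ℂ) := by
  have h1 := trace_eq_sum_embeddings (K := ℚ) (L := K) ℂ (x := y)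
  rw [Finset.sum_congr rfl fun σ _ => h σ, Finset.sum_const, nsmul_eq_mul] at h1
  have h2 : ((Finset.univ : Finset (K →ₐ[ℚ] ℂ)).card : ℂ) ≠ 0 := by
    have : 0 < (Finset.univ : Finset (K →ₐ[ℚ] ℂ)).card := Finset.card_pos.2 ⟨K.val, Finset.mem_univ _⟩
    exact_mod_cast this.ne'
  refine ⟨Algebra.trace ℚ K y / (Finset.univ : Finset (K →ₐ[ℚ] ℂ)).card, ?_⟩
  push_cast
  rw [eq_div_iff h2, mul_comm, ← h1]
  rfl

theorem strA : StrAStm := by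
  intro N ζ r q hN hζ hq hr x hx hx0 hR
  obtain ⟨M, hM, ρ, hρ⟩ := hR
  obtain ⟨hc, hσ⟩ := conj_comm hN hζ hq hr x hx
  have hρ0 : (ρ : ℂ) ≠ 0 := by
    rw [← hρ]
    exact pow_ne_zero _ hx0
  have hζi : IsIntegral ℚ ζ := by
    refine ⟨Polynomial.X ^ N - 1, Polynomial.monic_X_pow_sub_C 1 hN.ne', ?_⟩
    simp [hζ.pow_eq_one]
  have hri : IsIntegral ℚ r := by
    refine ⟨Polynomial.X ^ 2 - Polynomial.C q, Polynomial.monic_X_pow_sub_C q two_ne_zero, ?_⟩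
    simp [hr]
  have hfd : FiniteDimensional ℚ (adjoin ℚ ({ζ, r} : Set ℂ)) := by
    apply IntermediateField.finiteDimensional_adjoin
    rintro u (rfl | hu)
    · exact hζi
    · have : u = r := hu
      rw [this]
      exact hri
  set y : adjoin ℚ ({ζ, r} : Set ℂ) := ⟨x, hx⟩ * ⟨_, hc⟩ with hy
  have hyM : y ^ M = algebraMap ℚ _ (ρ ^ 2) := by
    apply Subtype.ext
    change (x * (starRingEnd ℂ) x) ^ M = algebraMap ℚ ℂ (ρ ^ 2)
    rw [mul_pow, ← map_pow, hρ]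
    simp [sq]
  have hyC : (y : ℂ) = ((Complex.normSq x : ℝ) : ℂ) := by
    change x * (starRingEnd ℂ) x = _
    rw [Complex.mul_conj]
  have hall : ∀ σ : adjoin ℚ ({ζ, r} : Set ℂ) →ₐ[ℚ] ℂ, σ y = (y : ℂ) := by
    intro σ
    have h1 : σ y = ((Complex.normSq (σ ⟨x, hx⟩) : ℝ) : ℂ) := by
      rw [hy, map_mul, hσ, Complex.mul_conj]
    have h2 : (σ y) ^ M = (y : ℂ) ^ M := by
      have h3 : (y : ℂ) ^ M = ((y ^ M : adjoin ℚ ({ζ, r} : Set ℂ)) : ℂ) := rfl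
      rw [← map_pow, h3, hyM, AlgHom.commutes]
      rfl
    rw [h1, hyC] at h2 ⊢
    have h3 : (Complex.normSq (σ ⟨x, hx⟩)) ^ M = (Complex.normSq x) ^ M := by exact_mod_cast h2
    rw [(pow_left_inj₀ (Complex.normSq_nonneg _) (Complex.normSq_nonneg _) hM.ne').1 h3]
  obtain ⟨t, ht⟩ := rat_of_conj _ y hall
  have ht0 : 0 < t := by
    have h1 : ((t : ℝ) : ℂ) = ((Complex.normSq x : ℝ) : ℂ) := by
      rw [← hyC, ht]
      simp
    have h2 : (t : ℝ) = Complex.normSq x := Complex.ofReal_injective h1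
    have h3 : 0 < (t : ℝ) := by
      rw [h2]
      exact Complex.normSq_pos.2 hx0
    exact_mod_cast h3
  have ht1 : (t : ℂ) ≠ 0 := by exact_mod_cast ht0.ne'
  have htM : (t : ℂ) ^ M = (ρ : ℂ) ^ 2 := by
    rw [← ht]
    have h3 : (y : ℂ) ^ M = ((y ^ M : adjoin ℚ ({ζ, r} : Set ℂ)) : ℂ) := rfl
    rw [h3, hyM]
    change algebraMap ℚ ℂ (ρ ^ 2) = _
    simp
  have hw : (x ^ 2 / (t : ℂ)) ^ M = 1 := by
    rw [div_pow, htM, ← pow_mul, mul_comm 2 M, pow_mul, hρ, div_self (pow_ne_zero _ hρ0)]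
  have hfo : IsOfFinOrder (x ^ 2 / (t : ℂ)) := isOfFinOrder_iff_pow_eq_one.2 ⟨M, hM, hw⟩
  refine ⟨orderOf (x ^ 2 / (t : ℂ)), hfo.orderOf_pos, x ^ 2 / (t : ℂ), IsPrimitiveRoot.orderOf _,
    t, ht0, ?_⟩
  rw [div_mul_cancel₀ _ ht1]

end Pool.Agent.Y258.RP
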